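import Mathlib

namespace Pool.Agent.Results.MP_cc637b_co.Triangles

universe u

/-- a cyclic sequence of `n + 2` vertices -/
structure Cyc (V : Type) where
  n : ℕ
  v : Fin (n + 2) → V

/-- the arcs of a cyclic sequence -/
def Cyc.arc {V : Type} (c : Cyc V) (x y : V) : Prop := ∃ i, c.v i = x ∧ c.v (i + 1) = y

/-- `c` is a directed cycle of `E` -/
def IsCycle {V : Type} (E : V → V → Prop) (c : Cyc V) : Prop :=
  Function.Injective c.v ∧ ∀ x y, c.arc x y → E x y

/-- reversal of the cycle `c` in `E` -/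
def rev {V : Type} (E : V → V → Prop) (c : Cyc V) (x y : V) : Prop :=
  (E x y ∧ ¬ c.arc x y) ∨ c.arc y x

/-- `RS D C a E`: the first `a` terms of `C` form a reversal sequence of `D` with result `E` -/
inductive RS {V : Type} (D : V → V → Prop) (C : Ordinal.{u} → Cyc V) :
    Ordinal.{u} → (V → V → Prop) → Prop
  | nil : RS D C 0 D
  | snoc (a : Ordinal.{u}) (E : V → V → Prop) :
      RS D C a E → IsCycle E (C a) → RS D C (a + 1) (rev E (C a))
  | lim (z : Ordinal.{u}) (a : Ordinal.{u} → Ordinal.{u}) (E : Ordinal.{u} → V → V → Prop)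
      (F : V → V → Prop) :
      MonotoneOn a (Set.Iio z) → (∀ s < z, RS D C (a s) (E s)) →
      (∀ x y, {b | (∃ s < z, b < a s) ∧ ((C b).arc x y ∨ (C b).arc y x)}.Finite) →
      (∀ x y, ∃ r < z, ∀ s, r ≤ s → s < z → (F x y ↔ E s x y)) →
      RS D C (⨆ s : Set.Iio z, a s) F

def T (k x y : ℕ) : Prop :=
  (x = 2 * k ∧ y = 2 * k + 1) ∨ (x = 2 * k + 1 ∧ y = 2 * k + 2) ∨ (x = 2 * k + 2 ∧ y = 2 * k)

def O (s : ℕ → Prop) (k x y : ℕ) : Prop := (s k ∧ T k x y) ∨ (¬ s k ∧ T k y x)

def G (s : ℕ → Prop) (x y : ℕ) : Prop := O s (min x y / 2) x y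

lemma G_of {s : ℕ → Prop} {k x y : ℕ} (h : O s k x y) : G s x y := by
  have : min x y / 2 = k := by
    unfold O T at h
    omega
  unfold G
  rwa [this]

lemma cut {V : Type} (c : Cyc V) (S : V → Prop) {x y : V} (h : c.arc x y) (hx : S x)
    (hy : ¬ S y) : ∃ x' y', c.arc x' y' ∧ ¬ S x' ∧ S y' := by
  by_contra hc
  push Not at hc
  obtain ⟨i, rfl, rfl⟩ := h
  have hm : Set.MapsTo (fun j : Fin (c.n + 2) => j + 1) {j | ¬ S (c.v j)} {j | ¬ S (c.v j)} :=
    fun j hj => hc _ _ ⟨j, rfl, rfl⟩ hj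
  have hb := (Set.Finite.injOn_iff_bijOn_of_mapsTo (Set.toFinite _) hm).1
    (add_left_injective 1).injOn
  obtain ⟨j, hj, e⟩ := hb.surjOn (show i + 1 ∈ {j | ¬ S (c.v j)} from hy)
  have : j = i := add_left_injective 1 e
  subst this
  exact hj hx

lemma O_same {s : ℕ → Prop} {k x y x' y' : ℕ} (h : O s k x y) (h' : O s k x' y') :
    (T k x y ∧ T k x' y') ∨ (T k y x ∧ T k y' x') := by
  rcases h with h | h <;> rcases h' with h' | h'
  · exact Or.inl ⟨h.2, h'.2⟩
  · exact absurd h.1 h'.1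
  · exact absurd h'.1 h.1
  · exact Or.inr ⟨h.2, h'.2⟩

lemma O_wk {s : ℕ → Prop} {k x y : ℕ} (h : O s k x y) : T k x y ∨ T k y x := by
  rcases h with h | h
  · exact Or.inl h.2
  · exact Or.inr h.2

lemma next {s : ℕ → Prop} {c : Cyc ℕ} (hc : ∀ x y, c.arc x y → G s x y) {k x y z : ℕ}
    (h : O s k x y) (ha : c.arc x y) (h' : O s k y z) : c.arc y z := by
  have use : ∀ S : ℕ → Prop, S x → ¬ S y →
      (∀ a b j, (T j a b ∨ T j b a) → ¬ S a → S b → j = k ∧ a = y) → c.arc y z := by
    intro S h1 h2 h3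
    obtain ⟨a, b, g1, g2, g3⟩ := cut c S ha h1 h2
    have g4 := hc _ _ g1
    obtain ⟨e1, e2⟩ := h3 a b _ (O_wk g4) g2 g3
    unfold G at g4
    rw [e1, e2] at g4
    have g5 := O_same g4 h'
    have : b = z := by
      unfold T at g5
      omega
    rw [← e2, ← this]
    exact g1
  have w := O_wk h
  unfold T at w
  have : y = 2 * k ∨ y = 2 * k + 1 ∨ y = 2 * k + 2 := by omega
  rcases this with e | e | e
  · refine use (fun a => 2 * k < a) (by omega) (by omega) ?_
    intro a b j g1 g2 g3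
    unfold T at g1
    omega
  · refine use (fun a => a ≠ 2 * k + 1) (by omega) (by omega) ?_
    intro a b j g1 g2 g3
    unfold T at g1
    omega
  · refine use (fun a => a < 2 * k + 2) (by omega) (by omega) ?_
    intro a b j g1 g2 g3
    unfold T at g1
    omega

lemma third {s : ℕ → Prop} {k x y : ℕ} (h : O s k x y) : ∃ z, O s k y z ∧ O s k z x := by
  refine ⟨6 * k + 3 - x - y, ?_⟩
  rcases h with ⟨h1, h⟩ | ⟨h1, h⟩
  · refine ⟨Or.inl ⟨h1, ?_⟩, Or.inl ⟨h1, ?_⟩⟩ <;> (unfold T at h ⊢; omega)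
  · refine ⟨Or.inr ⟨h1, ?_⟩, Or.inr ⟨h1, ?_⟩⟩ <;> (unfold T at h ⊢; omega)

lemma all_in {s : ℕ → Prop} {c : Cyc ℕ} (hc : ∀ x y, c.arc x y → G s x y) {k x y x' y' : ℕ}
    (h : O s k x y) (ha : c.arc x y) (h' : O s k x' y') : c.arc x' y' := by
  obtain ⟨z, h1, h2⟩ := third h
  have a1 := next hc h ha h1
  have a2 := next hc h1 a1 h2
  have e1 := O_same h h'
  have e2 := O_same h h1
  have e3 := O_same h h2
  have : x' = x ∨ x' = y ∨ x' = z := by
    unfold T at e1 e2
    omega
  rcases this with rfl | rfl | rfl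
  · have : y' = y := by
      unfold T at e1
      omega
    exact this ▸ ha
  · have e4 := O_same h1 h'
    have : y' = z := by
      unfold T at e4
      omega
    exact this ▸ a1
  · have e4 := O_same h2 h'
    have : y' = x := by
      unfold T at e4
      omega
    exact this ▸ a2

def Q (s : ℕ → Prop) (c : Cyc ℕ) (k : ℕ) : Prop := ∃ x y, O s k x y ∧ c.arc x y

lemma step {s : ℕ → Prop} {c : Cyc ℕ} (hc : ∀ x y, c.arc x y → G s x y) :
    rev (G s) c = G (fun k => s k ↔ ¬ Q s c k) := by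
  funext x y
  apply propext
  constructor
  · rintro (⟨h1, h2⟩ | h1)
    · have hn : ¬ Q s c (min x y / 2) := by
        rintro ⟨a, b, g1, g2⟩
        exact h2 (all_in hc g1 g2 h1)
      unfold G O at h1 ⊢
      simpa only [hn, not_false_eq_true, iff_true] using h1
    · have h2 := hc _ _ h1
      have hn : Q s c (min x y / 2) := ⟨y, x, by rw [min_comm]; exact h2, h1⟩
      unfold G O at h2 ⊢
      rw [min_comm] at h2
      simp only [hn, not_true_eq_false, iff_false, not_not]
      tauto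
  · intro h
    by_cases hn : Q s c (min x y / 2)
    · right
      have h1 : O s (min x y / 2) y x := by
        unfold G O at h
        simp only [hn, not_true_eq_false, iff_false, not_not] at h
        unfold O
        tauto
      obtain ⟨a, b, g1, g2⟩ := hn
      exact all_in hc g1 g2 h1
    · left
      have h1 : O s (min x y / 2) x y := by
        unfold G O at h
        unfold O
        simpa only [hn, not_false_eq_true, iff_true] using h
      exact ⟨h1, fun h2 => hn ⟨x, y, h1, h2⟩⟩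

lemma G_first (s : ℕ → Prop) (k : ℕ) : G s (2 * k) (2 * k + 1) ↔ s k := by
  have : min (2 * k) (2 * k + 1) / 2 = k := by omega
  unfold G O T
  rw [this]
  constructor
  · rintro (h | h)
    · exact h.1
    · omega
  · intro h
    exact Or.inl ⟨h, Or.inl ⟨rfl, rfl⟩⟩

lemma inv {s : ℕ → Prop} {C : Ordinal.{u} → Cyc ℕ} {a : Ordinal.{u}} {E : ℕ → ℕ → Prop}
    (h : RS (G s) C a E) : ∃ t, E = G t := by
  induction h with
  | nil => exact ⟨s, rfl⟩
  | snoc a E _ hc ih =>
    obtain ⟨t, rfl⟩ := ih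
    exact ⟨_, step hc.2⟩
  | lim z a E F _ _ _ hl ih =>
    refine ⟨fun k => F (2 * k) (2 * k + 1), ?_⟩
    funext x y
    apply propext
    obtain ⟨r, hr, h1⟩ := hl x y
    obtain ⟨r', hr', h2⟩ := hl (2 * (min x y / 2)) (2 * (min x y / 2) + 1)
    obtain ⟨t, ht⟩ := ih (max r r') (max_lt hr hr')
    have h3 := h1 _ (le_max_left r r') (max_lt hr hr')
    have h4 := h2 _ (le_max_right r r') (max_lt hr hr')
    rw [ht] at h3 h4
    rw [G_first] at h4
    rw [h3]
    unfold G O
    simp only [h4]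

lemma strong (s : ℕ → Prop) (x y : ℕ) : Relation.ReflTransGen (G s) x y := by
  have tri : ∀ k a b, T k a b → Relation.ReflTransGen (G s) a b ∧
      Relation.ReflTransGen (G s) b a := by
    intro k a b h
    obtain ⟨d, h1, h2⟩ : ∃ d, T k b d ∧ T k d a := by
      unfold T at h ⊢
      refine ⟨6 * k + 3 - a - b, ?_⟩
      omega
    by_cases hs : s k
    · have g : ∀ p q, T k p q → G s p q := fun p q g => G_of (Or.inl ⟨hs, g⟩)
      exact ⟨.single (g _ _ h), .tail (.single (g _ _ h1)) (g _ _ h2)⟩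
    · have g : ∀ p q, T k p q → G s q p := fun p q g => G_of (Or.inr ⟨hs, g⟩)
      exact ⟨.tail (.single (g _ _ h2)) (g _ _ h1), .single (g _ _ h)⟩
  have zero : ∀ n, Relation.ReflTransGen (G s) 0 n ∧ Relation.ReflTransGen (G s) n 0 := by
    intro n
    induction n with
    | zero => exact ⟨.refl, .refl⟩
    | succ n ih =>
      have := tri (n / 2) n (n + 1) (by unfold T; omega)
      exact ⟨ih.1.trans this.1, this.2.trans ih.2⟩
  exact (zero x).2.trans (zero y).1

theorem result : ∃ D : ℕ → ℕ → Prop, (∀ x y, D x y → ¬ D y x) ∧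
    (∀ x, {y | D x y ∨ D y x}.encard ≤ 4) ∧
    ∀ (C : Ordinal.{u} → Cyc ℕ) (a : Ordinal.{u}) (E : ℕ → ℕ → Prop), RS D C a E →
      ∀ x y, Relation.ReflTransGen E x y := by
  refine ⟨G fun _ => True, ?_, ?_, ?_⟩
  · intro x y h1 h2
    simp only [G, O, T, true_and, not_true_eq_false, false_and, or_false] at h1 h2
    omega
  · intro x
    have : {y | G (fun _ => True) x y ∨ G (fun _ => True) y x} ⊆
        {x - 2, x - 1, x + 1, x + 2} := by
      intro y hy
      simp only [G, O, T, true_and, not_true_eq_false, false_and, or_false, Set.mem_ofPred_eq] at hy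
      simp only [Set.mem_insert_iff, Set.mem_singleton_iff]
      omega
    refine (Set.encard_le_encard this).trans ?_
    refine (Set.encard_insert_le _ _).trans ?_
    have h2 := Set.encard_insert_le ({x + 1, x + 2} : Set ℕ) (x - 1)
    have h3 := Set.encard_insert_le ({x + 2} : Set ℕ) (x + 1)
    rw [Set.encard_singleton] at h3
    calc _ ≤ (1 + 1 + 1 : ℕ∞) + 1 := by gcongr; exact h2.trans (by gcongr)
      _ = 4 := by norm_num
  · intro C a E h x y
    obtain ⟨t, rfl⟩ := inv h
    exact strong t x y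

end Pool.Agent.Results.MP_cc637b_co.Triangles
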